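import Pool.Agent.N352.PF.Cnt
import Pool.Agent.N568.PJ.D12

/-!
# Medium prime ideals in the sieve (helper99, for project PF of helper783 and helper352)

The number of the elements of the box whose discriminant is divisible by the square of a prime
ideal `v` with `M < N(v)`, `N(v) ^ 2 < B`, not containing `W`, is at most a quarter of the number of
all elements. Port of `N595/PQ/SML.lean` (helper595).
-/

set_option autoImplicit false
set_option linter.all false

open Polynomial NumberField IsDedekindDomain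

namespace Pool.Agent.N352.PF.SML99

open Pool.Agent.N352.PF
open Pool.Agent.N352.PJ (dd pol dis Dy D2)

/-! ### Boxes -/

lemma sum_side (n : ℕ) : (∑ j ∈ Finset.range n, (n + 1 - j)) * 2 = n * (n + 3) := by
  induction n with
  | zero => simp
  | succ n ih =>
    rw [Finset.sum_range_succ']
    have e : ∀ j, n + 1 + 1 - (j + 1) = n + 1 - j := fun j => by omega
    simp_rw [e]
    rw [add_mul, ih]
    ring_nf
    omega

lemma sum_dd (g : ℕ) : ∑ j : Fin (2 * g), (2 * g + 1 - (j : ℕ)) = dd g := by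
  have h := sum_side (2 * g)
  rw [← Fin.sum_univ_eq_sum_range (fun j => 2 * g + 1 - j)] at h
  unfold dd
  have e : 2 * g * (2 * g + 3) = (2 * g ^ 2 + 3 * g) * 2 := by ring
  omega

variable {F : Type} [Field F] [NumberField F]

/-- the box in a class modulo an ideal -/
def Bi (g B : ℕ) (I : Ideal (𝓞 F)) (A : Fin (2 * g) → 𝓞 F) : Set (Fin (2 * g) → 𝓞 F) :=
  {a | a ∈ Bz F g B ∧ ∀ j, a j - A j ∈ I}

lemma box_card {C : ℕ} (hC : ∀ (T : ℕ) (I : Ideal (𝓞 F)) (A : 𝓞 F), 1 ≤ T → I ≠ ⊥ →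
    {x ∈ Bal F T | x - A ∈ I}.Finite ∧
    {x ∈ Bal F T | x - A ∈ I}.ncard * Ideal.absNorm I ≤ C * (T ^ dg F + Ideal.absNorm I))
    (g B : ℕ) (I : Ideal (𝓞 F)) (A : Fin (2 * g) → 𝓞 F) (hI : I ≠ ⊥) (hB1 : 1 ≤ B)
    (hB : Ideal.absNorm I ≤ B ^ (2 * dg F)) :
    (Bi g B I A).Finite ∧ (Bi g B I A).ncard * Ideal.absNorm I ^ (2 * g) ≤
      (2 * C) ^ (2 * g) * B ^ (dg F * dd g) := by
  classical
  have hfin : ∀ j : Fin (2 * g), {x ∈ Bal F (B ^ (2 * g + 1 - (j : ℕ))) | x - A j ∈ I}.Finite :=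
    fun j => (hC _ I (A j) (Nat.one_le_pow _ _ hB1) hI).1
  set S : Fin (2 * g) → Finset (𝓞 F) := fun j => (hfin j).toFinset with hS
  have e : Bi g B I A = ↑(Fintype.piFinset S) := by
    ext a
    simp only [Bi, Bz, Set.mem_setOf_eq, Finset.mem_coe, Fintype.mem_piFinset, hS,
      Set.Finite.mem_toFinset]
    constructor
    · rintro ⟨h1, h2⟩ j
      exact ⟨h1 j, h2 j⟩
    · intro h
      exact ⟨fun j => (h j).1, fun j => (h j).2⟩
  rw [e]
  refine ⟨Finset.finite_toSet _, ?_⟩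
  rw [Set.ncard_coe_finset, Fintype.card_piFinset]
  calc (∏ j, (S j).card) * Ideal.absNorm I ^ (2 * g)
      = ∏ j : Fin (2 * g), ((S j).card * Ideal.absNorm I) := by
        rw [Finset.prod_mul_distrib, Finset.prod_const, Finset.card_univ, Fintype.card_fin]
    _ ≤ ∏ j : Fin (2 * g), ((2 * C) * (B ^ dg F) ^ (2 * g + 1 - (j : ℕ))) := by
        refine Finset.prod_le_prod' fun j _ => ?_
        have h1 := (hC _ I (A j) (Nat.one_le_pow (2 * g + 1 - (j : ℕ)) _ hB1) hI).2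
        rw [Set.ncard_eq_toFinset_card _ (hfin j)] at h1
        refine h1.trans ?_
        have h2 : Ideal.absNorm I ≤ (B ^ dg F) ^ (2 * g + 1 - (j : ℕ)) := by
          refine hB.trans ?_
          rw [mul_comm 2, pow_mul]
          refine Nat.pow_le_pow_right (Nat.one_le_pow _ _ hB1) ?_
          have := j.2
          omega
        have h3 : (B ^ (2 * g + 1 - (j : ℕ))) ^ dg F = (B ^ dg F) ^ (2 * g + 1 - (j : ℕ)) := by
          rw [← pow_mul, ← pow_mul, mul_comm]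
        rw [h3]
        calc C * ((B ^ dg F) ^ (2 * g + 1 - (j : ℕ)) + Ideal.absNorm I)
            ≤ C * ((B ^ dg F) ^ (2 * g + 1 - (j : ℕ)) + (B ^ dg F) ^ (2 * g + 1 - (j : ℕ))) := by
              gcongr
          _ = _ := by ring
    _ = (2 * C) ^ (2 * g) * B ^ (dg F * dd g) := by
        rw [Finset.prod_mul_distrib, Finset.prod_const, Finset.card_univ, Fintype.card_fin,
          Finset.prod_pow_eq_pow_sum, sum_dd, ← pow_mul]

/-! ### One prime -/

/-- The constant of `S_LD`. -/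
def cc (g : ℕ) : ℕ := 2 * g + 2 * g * (2 * g - 1) * (2 * g + 1)

lemma dg_pos : 0 < dg F := Module.finrank_pos

lemma one_prime {C C₂ : ℕ} (hC : ∀ (T : ℕ) (I : Ideal (𝓞 F)) (A : 𝓞 F), 1 ≤ T → I ≠ ⊥ →
    {x ∈ Bal F T | x - A ∈ I}.Finite ∧
    {x ∈ Bal F T | x - A ∈ I}.ncard * Ideal.absNorm I ≤ C * (T ^ dg F + Ideal.absNorm I))
    {g : ℕ} (hg : 1 ≤ g)
    (hC2 : ∀ (B W : ℕ) (A : Fin (2 * g) → 𝓞 F), 0 < W → C₂ * W ≤ B →
      (Bx g B W A).Finite ∧ B ^ (dg F * dd g) ≤ C₂ * (Bx g B W A).ncard * W ^ (2 * g * dg F) ∧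
      (Bx g B W A).ncard * W ^ (2 * g * dg F) ≤ C₂ * B ^ (dg F * dd g))
    (h3 : S_LD) {B W : ℕ} (A : Fin (2 * g) → 𝓞 F) (h1C : 1 ≤ C₂)
    (hW : 0 < W) (hWB : C₂ * W ≤ B) {v : HeightOneSpectrum (𝓞 F)} (hv1 : 1 ≤ nv v)
    (hgP : ((2 * g + 1).factorial : 𝓞 F) ∉ v.asIdeal) (hPB : nv v ^ 2 < B ^ dg F)
    (hPW : (W : 𝓞 F) ∉ v.asIdeal) :
    {a ∈ Bx g B W A | dis a ∈ v.asIdeal ^ 2}.ncard * nv v ^ 2 ≤
      cc g * (2 * C) ^ (2 * g) * C₂ * (Bx g B W A).ncard := by
  classical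
  set q : ℕ := nv v with hq
  set J : Ideal (𝓞 F) := v.asIdeal ^ 2 with hJ
  have hJ0 : J ≠ ⊥ := pow_ne_zero 2 v.ne_bot
  haveI : Finite (𝓞 F ⧸ J) := J.finiteQuotientOfFreeOfNeBot hJ0
  have hWB' : W ≤ B := le_trans (Nat.le_mul_of_pos_left W h1C) hWB
  have hB1 : 1 ≤ B := le_trans hW hWB'
  have hd := dg_pos (F := F)
  set I : Ideal (𝓞 F) := Ideal.span {(W : 𝓞 F)} * J with hI
  have hW0 : (W : 𝓞 F) ≠ 0 := by
    have : W ≠ 0 := by omega
    exact_mod_cast this
  have hI0 : I ≠ ⊥ := by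
    rw [hI]
    apply mul_ne_zero _ hJ0
    rw [Ideal.zero_eq_bot, Ne, Ideal.span_singleton_eq_bot]
    exact hW0
  have hnJ : Ideal.absNorm J = q ^ 2 := by rw [hJ, map_pow]; rfl
  have hnI : Ideal.absNorm I = W ^ dg F * q ^ 2 := by
    rw [hI, map_mul, hnJ, Ideal.absNorm_span_natCast, NumberField.RingOfIntegers.rank]
  have hmB : Ideal.absNorm I ≤ B ^ (2 * dg F) := by
    rw [hnI, two_mul, pow_add]
    refine Nat.mul_le_mul (Nat.pow_le_pow_left hWB' _) ?_
    exact hPB.le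
  -- coprimality
  have hcop : IsCoprime (Ideal.span {(W : 𝓞 F)}) J := by
    rw [hJ]
    apply IsCoprime.pow_right
    rw [Ideal.isCoprime_iff_sup_eq]
    have hmax : v.asIdeal.IsMaximal := v.isMaximal
    apply hmax.out.2
    refine lt_of_le_of_ne le_sup_right (fun h => hPW ?_)
    rw [h]
    exact Ideal.mem_sup_left (Ideal.mem_span_singleton_self _)
  obtain ⟨s, hs, t, ht, hst⟩ := Ideal.isCoprime_iff_exists.1 hcop
  set T : Set (Fin (2 * g) → 𝓞 F ⧸ J) := {b | dis b = 0} with hT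
  have hTf : T.Finite := Set.toFinite T
  set lift : (𝓞 F ⧸ J) → 𝓞 F := Function.surjInv (Ideal.Quotient.mk_surjective (I := J)) with hlift
  have hliftp : ∀ b, Ideal.Quotient.mk J (lift b) = b :=
    Function.surjInv_eq (Ideal.Quotient.mk_surjective (I := J))
  set A' : (Fin (2 * g) → 𝓞 F ⧸ J) → (Fin (2 * g) → 𝓞 F) := fun b j =>
    A j * t + lift (b j) * s with hA'
  set n : ℕ := (2 * C) ^ (2 * g) * B ^ (dg F * dd g) / Ideal.absNorm I ^ (2 * g) with hn
  have hIpos : 0 < Ideal.absNorm I := by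
    rw [hnI]; positivity
  set Fb : (Fin (2 * g) → 𝓞 F ⧸ J) → Finset (Fin (2 * g) → 𝓞 F) := fun b =>
    (box_card hC g B I (A' b) hI0 hB1 hmB).1.toFinset with hF
  have hFn : ∀ b ∈ hTf.toFinset, (Fb b).card ≤ n := by
    intro b _
    rw [hn, Nat.le_div_iff_mul_le (by positivity)]
    have := (box_card hC g B I (A' b) hI0 hB1 hmB).2
    rwa [Set.ncard_eq_toFinset_card _ (box_card hC g B I (A' b) hI0 hB1 hmB).1] at this
  have hcard := Finset.card_biUnion_le_card_mul hTf.toFinset Fb n hFn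
  have hsub : {a ∈ Bx g B W A | dis a ∈ J} ⊆ ↑(hTf.toFinset.biUnion Fb) := by
    rintro a ⟨ha, had⟩
    set b : Fin (2 * g) → 𝓞 F ⧸ J := fun j => Ideal.Quotient.mk J (a j) with hb
    have hab : ∀ j, a j - lift (b j) ∈ J := by
      intro j
      rw [← Ideal.Quotient.eq, hliftp]
    have hbT : b ∈ T := by
      show dis b = 0
      rw [hb, ← Pool.Agent.N568.PJ.dis_map (Ideal.Quotient.mk J) a]
      exact Ideal.Quotient.eq_zero_iff_mem.2 had
    simp only [Finset.coe_biUnion, Set.mem_iUnion, Finset.mem_coe, Set.Finite.mem_toFinset]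
    refine ⟨b, hbT, ?_⟩
    simp only [hF, Set.Finite.mem_toFinset]
    refine ⟨ha.1, fun j => ?_⟩
    have hW1 : a j - A' b j ∈ Ideal.span {(W : 𝓞 F)} := by
      have : a j - A' b j = (a j - A j) + s * (A j - lift (b j)) := by
        simp only [hA']
        have : t = 1 - s := by rw [← hst]; ring
        rw [this]; ring
      rw [this]
      exact Ideal.add_mem _ (Ideal.mem_span_singleton.2 (ha.2 j)) (Ideal.mul_mem_right _ _ hs)
    have hP1 : a j - A' b j ∈ J := by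
      have : a j - A' b j = (a j - lift (b j)) + t * (lift (b j) - A j) := by
        simp only [hA']
        have : s = 1 - t := by rw [← hst]; ring
        rw [this]; ring
      rw [this]
      exact Ideal.add_mem _ (hab j) (Ideal.mul_mem_right _ _ ht)
    rw [hI, ← Ideal.inf_eq_mul_of_isCoprime hcop]
    exact ⟨hW1, hP1⟩
  have hle : {a ∈ Bx g B W A | dis a ∈ J}.ncard ≤ T.ncard * n := by
    rw [Set.ncard_eq_toFinset_card _ hTf]
    refine le_trans ?_ hcard
    have := Set.ncard_le_ncard hsub (Finset.finite_toSet _)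
    rwa [Set.ncard_coe_finset] at this
  set N := {a ∈ Bx g B W A | dis a ∈ J}.ncard with hN
  have hld : T.ncard * q ^ 2 ≤ cc g * q ^ (4 * g) := h3 F g v hg hgP
  have hbx : B ^ (dg F * dd g) ≤ C₂ * (Bx g B W A).ncard * W ^ (2 * g * dg F) :=
    (hC2 B W A hW hWB).2.1
  have hn2 : n * Ideal.absNorm I ^ (2 * g) ≤ (2 * C) ^ (2 * g) * B ^ (dg F * dd g) :=
    Nat.div_mul_le_self _ _
  have hfin : N * q ^ 2 * Ideal.absNorm I ^ (2 * g) ≤
      cc g * (2 * C) ^ (2 * g) * C₂ * (Bx g B W A).ncard * Ideal.absNorm I ^ (2 * g) := by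
    calc N * q ^ 2 * Ideal.absNorm I ^ (2 * g)
        ≤ (T.ncard * n) * q ^ 2 * Ideal.absNorm I ^ (2 * g) := by
          gcongr
      _ = (T.ncard * q ^ 2) * (n * Ideal.absNorm I ^ (2 * g)) := by ring
      _ ≤ (cc g * q ^ (4 * g)) * ((2 * C) ^ (2 * g) *
            (C₂ * (Bx g B W A).ncard * W ^ (2 * g * dg F))) := by
          refine Nat.mul_le_mul hld (hn2.trans ?_)
          gcongr
      _ = _ := by
          have e : (W ^ dg F * q ^ 2) ^ (2 * g) = W ^ (2 * g * dg F) * q ^ (4 * g) := by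
            rw [mul_pow, ← pow_mul, ← pow_mul, show 2 * (2 * g) = 4 * g by ring,
              show dg F * (2 * g) = 2 * g * dg F by ring]
          rw [hnI, e]
          ring
  exact Nat.le_of_mul_le_mul_right hfin (by positivity)

/-! ### The sum -/

theorem sml (h1 : S_CU) (h2 : S_BX) (h3 : S_LD) (h4 : S_PR) (h5 : S_PF) : S_SML := by
  classical
  intro F _ _ g hg
  obtain ⟨C, hC⟩ := h1 F
  obtain ⟨C₂, h1C, hC2⟩ := h2 F g
  obtain ⟨h51, h52, h53⟩ := h5 F
  set K : ℕ := cc g * (2 * C) ^ (2 * g) * C₂ with hK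
  have hε : (0 : ℝ) < 1 / (4 * ((K : ℝ) + 1)) := by positivity
  obtain ⟨M₀, hM₀⟩ := h4 F _ hε
  set M : ℕ := max M₀ ((2 * g + 1).factorial ^ dg F) with hM
  refine ⟨M, C₂, h1C, fun B W A hW hWB => ?_⟩
  set U : Set (Fin (2 * g) → 𝓞 F) := {a ∈ Bx g B W A | ∃ v : HeightOneSpectrum (𝓞 F), M < nv v ∧
    nv v ^ 2 < B ^ dg F ∧ (W : 𝓞 F) ∉ v.asIdeal ∧ dis a ∈ v.asIdeal ^ 2} with hU
  have hBf : (Bx g B W A).Finite := (hC2 B W A hW hWB).1
  set X : ℕ := (Bx g B W A).ncard with hX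
  set I : Finset (HeightOneSpectrum (𝓞 F)) := (h51 (B ^ dg F)).toFinset.filter
    (fun v => M < nv v ∧ nv v ^ 2 < B ^ dg F ∧ (W : 𝓞 F) ∉ v.asIdeal) with hI
  have hVf : ∀ v : HeightOneSpectrum (𝓞 F), {a ∈ Bx g B W A | dis a ∈ v.asIdeal ^ 2}.Finite :=
    fun v => hBf.subset fun a ha => ha.1
  have hsub : U ⊆ ↑(I.biUnion fun v => (hVf v).toFinset) := by
    rintro a ⟨ha, v, hMv, hvB, hvW, hd⟩
    simp only [Finset.coe_biUnion, Set.mem_iUnion, Finset.mem_coe]
    refine ⟨v, ?_, ?_⟩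
    · rw [hI, Finset.mem_filter, Set.Finite.mem_toFinset]
      refine ⟨?_, hMv, hvB, hvW⟩
      have : nv v ≤ nv v ^ 2 := Nat.le_self_pow (by norm_num) _
      show nv v ≤ B ^ dg F
      exact this.trans hvB.le
    · rw [Set.Finite.mem_toFinset]
      exact ⟨ha, hd⟩
  have hU1 : U.ncard ≤ ∑ v ∈ I, {a ∈ Bx g B W A | dis a ∈ v.asIdeal ^ 2}.ncard := by
    have h3 := Set.ncard_le_ncard hsub (Finset.finite_toSet _)
    rw [Set.ncard_coe_finset] at h3
    refine h3.trans (Finset.card_biUnion_le.trans (Finset.sum_le_sum fun v _ => ?_))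
    rw [Set.ncard_eq_toFinset_card _ (hVf v)]
  have hU2 : (U.ncard : ℝ) ≤ K * X * (1 / (4 * ((K : ℝ) + 1))) := by
    calc (U.ncard : ℝ) ≤ ∑ v ∈ I, ({a ∈ Bx g B W A | dis a ∈ v.asIdeal ^ 2}.ncard : ℝ) := by
          exact_mod_cast hU1
      _ ≤ ∑ v ∈ I, (K * X : ℝ) * (1 / ((nv v : ℝ) ^ 2)) := by
          refine Finset.sum_le_sum fun v hv => ?_
          rw [hI, Finset.mem_filter] at hv
          obtain ⟨_, hMv, hvB, hvW⟩ := hv
          have hv2 : 2 ≤ nv v := h53 v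
          have hfac : ((2 * g + 1).factorial : 𝓞 F) ∉ v.asIdeal := by
            intro hcon
            have h6 := h52 v _ (Nat.factorial_pos _) hcon
            have h7 : (2 * g + 1).factorial ^ dg F ≤ M := le_max_right _ _
            omega
          have h4 := one_prime hC hg hC2 h3 A h1C hW hWB (v := v) (by omega) hfac hvB hvW
          have h5 : ({a ∈ Bx g B W A | dis a ∈ v.asIdeal ^ 2}.ncard : ℝ) * (nv v : ℝ) ^ 2 ≤
              K * X := by
            rw [hK, hX]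
            exact_mod_cast h4
          have h6 : (0 : ℝ) < (nv v : ℝ) ^ 2 := by
            have : 0 < nv v := by omega
            positivity
          rw [mul_one_div, le_div_iff₀ h6]
          exact h5
      _ = (K * X : ℝ) * ∑ v ∈ I, (1 / ((nv v : ℝ) ^ 2)) := by
          rw [Finset.mul_sum]
      _ ≤ K * X * (1 / (4 * ((K : ℝ) + 1))) := by
          refine mul_le_mul_of_nonneg_left ?_ (by positivity)
          apply hM₀ I
          intro v hv
          rw [hI, Finset.mem_filter] at hv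
          exact lt_of_le_of_lt (le_max_left _ _) hv.2.1
  have hfin : 4 * (U.ncard : ℝ) ≤ X := by
    have hX0 : (0 : ℝ) ≤ X := by positivity
    have hK0 : (0 : ℝ) ≤ K := by positivity
    calc 4 * (U.ncard : ℝ) ≤ 4 * (K * X * (1 / (4 * ((K : ℝ) + 1)))) := by linarith
      _ = (K / ((K : ℝ) + 1)) * X := by field_simp
      _ ≤ 1 * X := by
          refine mul_le_mul_of_nonneg_right ?_ hX0
          rw [div_le_one (by positivity)]
          linarith
      _ = X := one_mul _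
  exact_mod_cast hfin

end Pool.Agent.N352.PF.SML99
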