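import Pool.Agent.N352.PF.Cnt
import Pool.Agent.N568.PJ.D12
import Pool.Agent.N891.PQ.StrA
import Pool.Agent.N331.PF.StrA
import Pool.Agent.N364.PF.Cl

/-!
# Project PF (helper783, helper352), part STR (helper331): strongly divisible discriminants

Port of `Pool/Agent/N891/PQ/Str.lean` (helper891) to number fields.
-/

set_option autoImplicit false
set_option linter.all false

open Polynomial NumberField IsDedekindDomain
open scoped Classical

namespace Pool.Agent.N352.PF.STR331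

open Pool.Agent.N352.PJ (dd pol dis Dy D2 Dz S_D1 S_D2)
open Pool.Agent.N352.PF
open Pool.Agent.N568.PJ (d1 d2 D2_map)
open Pool.Agent.N891.PQ (fib_count)
open Pool.Agent.N331.PF

theorem sum_dd (g : ℕ) : ∑ j : Fin (2 * g), (2 * g + 1 - (j : ℕ)) = dd g := by
  unfold dd
  have h2 : ∀ n : ℕ, n ≤ 2 * g → 2 * (∑ j ∈ Finset.range n, (2 * g + 1 - j)) + n * n =
      (4 * g + 3) * n := by
    intro n
    induction n with
    | zero => simp
    | succ n ih =>
      intro hn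
      have := ih (by omega)
      rw [Finset.sum_range_succ, mul_add]
      obtain ⟨t, ht⟩ : ∃ t, 2 * g + 1 - n = t := ⟨_, rfl⟩
      have ht' : t + n = 2 * g + 1 := by omega
      rw [ht]
      nlinarith
  have h3 := h2 (2 * g) le_rfl
  rw [Fin.sum_univ_eq_sum_range (fun j => 2 * g + 1 - j) (2 * g)]
  nlinarith

theorem card_box {α : Type} (g B d K : ℕ) (S : Fin (2 * g) → Finset α)
    (hS : ∀ j, (S j).card ≤ K * (B ^ (2 * g + 1 - (j : ℕ))) ^ d) :
    (Fintype.piFinset S).card ≤ K ^ (2 * g) * B ^ (d * dd g) := by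
  rw [Fintype.card_piFinset]
  have h1 : ∏ j, (S j).card ≤ ∏ j : Fin (2 * g), K * (B ^ (2 * g + 1 - (j : ℕ))) ^ d :=
    Finset.prod_le_prod' fun j _ => hS j
  refine h1.trans (le_of_eq ?_)
  rw [Finset.prod_mul_distrib, Finset.prod_const, Finset.card_univ, Fintype.card_fin,
    Finset.prod_pow, Finset.prod_pow_eq_pow_sum, sum_dd, ← pow_mul, mul_comm (dd g) d]

/-- The version with a smaller threshold. -/
def S_STR0 : Prop := ∀ (F : Type) [Field F] [NumberField F] (g : ℕ), 1 ≤ g → ∀ ε : ℝ, 0 < ε →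
  ∃ B₀ : ℕ, ∀ B ≥ B₀, ({a ∈ Bz F g B | ∃ v : HeightOneSpectrum (𝓞 F), B ≤ nv v ^ 2 ∧
    dis a ∈ v.asIdeal ∧ D2 a ∈ v.asIdeal}.ncard : ℝ) ≤ ε * (B : ℝ) ^ (dg F * dd g)

theorem str0 (h1 : S_CU) (h2 : S_CL) (h3 : S_PF) : S_STR0 := by
  intro F _ _ g hg ε hε
  obtain ⟨CU, hCU⟩ := h1 F
  obtain ⟨CL, hCL1, hCL⟩ := h2 F
  obtain ⟨-, hPF2, -⟩ := h3 F
  obtain ⟨d, hd⟩ : ∃ d, d = dg F := ⟨_, rfl⟩
  have hd1 : 1 ≤ d := by
    rw [hd]
    exact Module.finrank_pos
  rw [← hd] at hCU hCL hPF2 ⊢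
  have hfin : ∀ T : ℕ, 1 ≤ T → (Bal F T).Finite := by
    intro T hT
    have := (hCU T ⊤ 0 hT top_ne_bot).1
    convert this using 1
    ext x
    simp
  have hup : ∀ T : ℕ, 1 ≤ T → (Bal F T).ncard ≤ (2 * CU) * T ^ d := by
    intro T hT
    have h4 := (hCU T ⊤ 0 hT top_ne_bot).2
    rw [Ideal.absNorm_top, mul_one] at h4
    have h5 : {x ∈ Bal F T | x - 0 ∈ (⊤ : Ideal (𝓞 F))} = Bal F T := by
      ext x
      simp
    rw [h5] at h4
    have h6 : 1 ≤ T ^ d := Nat.one_le_pow _ _ hT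
    nlinarith
  have hlow : ∀ T : ℕ, CL ≤ T → T ^ d ≤ CL * (Bal F T).ncard := by
    intro T hT
    have h4 := hCL T 1 0 one_pos (by simpa using hT)
    rw [one_pow, mul_one] at h4
    have h5 : {x ∈ Bal F T | ((1 : ℕ) : 𝓞 F) ∣ x - 0} = Bal F T := by
      ext x
      simp
    rw [h5] at h4
    exact h4
  -- the bound for `D2`
  obtain ⟨C, m, hCm⟩ := mv_boundC (D2 fun j : Fin (2 * g) => (MvPolynomial.X j : MvPolynomial (Fin (2 * g)) ℤ))
  have hD2b : ∀ (T : ℝ), 1 ≤ T → ∀ (a : Fin (2 * g) → 𝓞 F) (σ : F →+* ℂ),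
      (∀ j, ‖σ (a j)‖ ≤ T) → ‖σ ((D2 a : 𝓞 F) : F)‖ ≤ C * T ^ m := by
    intro T hT a σ ha
    have h1 := hCm T hT (fun j => σ (a j)) ha
    have h2 := D2_map (MvPolynomial.eval₂Hom (Int.castRingHom ℂ) (fun j => σ (a j)))
      (fun j : Fin (2 * g) => (MvPolynomial.X j : MvPolynomial (Fin (2 * g)) ℤ))
    rw [MvPolynomial.coe_eval₂Hom] at h2
    rw [h2] at h1
    have h3 : σ (algebraMap (𝓞 F) F (D2 a)) = D2 (fun j => σ ((a j : 𝓞 F) : F)) :=
      D2_map (σ.comp (algebraMap (𝓞 F) F)) a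
    change ‖σ (algebraMap (𝓞 F) F (D2 a))‖ ≤ _
    rw [h3]
    simpa only [MvPolynomial.eval₂_X] using h1
  obtain ⟨m', hm'⟩ : ∃ m', m' = (2 * g + 1) * m := ⟨_, rfl⟩
  obtain ⟨K1, hK1⟩ : ∃ K1, K1 = (2 * g - 1) * (2 * g + 1) := ⟨_, rfl⟩
  obtain ⟨K, hK⟩ : ∃ K, K = CL * K1 + 8 * CL * m' * d * g * CU := ⟨_, rfl⟩
  obtain ⟨n0, hn0⟩ : ∃ n0 : ℕ, ((K * (2 * CU) ^ (2 * g) : ℕ) : ℝ) / ε ≤ n0 := exists_nat_ge _
  refine ⟨n0 ^ 2 + C ^ (2 * d) + (2 * g + 1) ^ (2 * d) + CL + 2, fun B hB => ?_⟩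
  have hB1 : 1 ≤ B := by omega
  have hBC : C ^ (2 * dg F) < B := by rw [← hd]; omega
  have hBg : (2 * g + 1) ^ (2 * d) < B := by omega
  have hBL : CL ≤ B := by omega
  obtain ⟨Q, hQ⟩ : ∃ Q, Q = Nat.sqrt B := ⟨_, rfl⟩
  have hQn : n0 ≤ Q := by
    rw [hQ, Nat.le_sqrt']
    omega
  have hQ1 : 1 ≤ Q := by
    rw [hQ, Nat.le_sqrt']
    omega
  have hQB : Q ≤ B := by
    rw [hQ]
    exact Nat.sqrt_le_self B
  have hPQ : ∀ P : ℕ, B ≤ P ^ 2 → Q ≤ P := by
    intro P hP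
    rw [hQ]
    have := Nat.sqrt_le_sqrt hP
    rwa [Nat.sqrt_eq'] at this
  have hPg : ∀ v : HeightOneSpectrum (𝓞 F), B ≤ nv v ^ 2 → ((2 * g + 1 : ℕ) : 𝓞 F) ∉ v.asIdeal := by
    intro v hv hmem
    have h4 := hPF2 v (2 * g + 1) (by omega) hmem
    have h5 := Nat.pow_le_pow_left h4 2
    rw [← pow_mul, mul_comm d 2] at h5
    omega
  -- the sets
  have hB1j : ∀ j : Fin (2 * g), 1 ≤ B ^ (2 * g + 1 - (j : ℕ)) := fun j => Nat.one_le_pow _ _ hB1
  obtain ⟨S, hS⟩ : ∃ S : Fin (2 * g) → Finset (𝓞 F), S = fun j : Fin (2 * g) =>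
    (hfin (B ^ (2 * g + 1 - (j : ℕ))) (hB1j j)).toFinset := ⟨_, rfl⟩
  have hScard : ∀ j : Fin (2 * g), (S j).card = (Bal F (B ^ (2 * g + 1 - (j : ℕ)))).ncard := by
    intro j
    rw [hS]
    exact (Set.ncard_eq_toFinset_card _ _).symm
  have hmem : ∀ a : Fin (2 * g) → 𝓞 F, a ∈ Fintype.piFinset S ↔
      ∀ j : Fin (2 * g), a j ∈ Bal F (B ^ (2 * g + 1 - (j : ℕ))) := by
    intro a
    rw [Fintype.mem_piFinset]
    refine forall_congr' fun j => ?_
    rw [hS]
    simp only [Set.Finite.mem_toFinset]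
  have hBr1 : (1 : ℝ) ≤ B := by exact_mod_cast hB1
  have hbd : ∀ a ∈ Fintype.piFinset S, ∀ σ : F →+* ℂ, ‖σ ((D2 a : 𝓞 F) : F)‖ ≤ (C : ℝ) * (B : ℝ) ^ m' := by
    intro a ha σ
    rw [hm', pow_mul]
    refine hD2b _ (one_le_pow₀ hBr1) a σ fun j => ?_
    refine ((hmem a).1 ha j σ).trans ?_
    push_cast
    exact pow_le_pow_right₀ hBr1 (Nat.sub_le _ _)
  -- the two coordinates
  obtain ⟨i0, hi0⟩ : ∃ i0 : Fin (2 * g), (i0 : ℕ) = 0 := ⟨⟨0, by omega⟩, rfl⟩
  obtain ⟨i1, hi1⟩ : ∃ i1 : Fin (2 * g), (i1 : ℕ) = 1 := ⟨⟨1, by omega⟩, rfl⟩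
  have hup0 : ∀ (a : Fin (2 * g) → 𝓞 F) (y : 𝓞 F),
      (fun j : Fin (2 * g) => if (j : ℕ) = 0 then y else a j) = Function.update a i0 y := by
    intro a y
    funext j
    by_cases hj : j = i0
    · subst hj
      rw [Function.update_self, if_pos hi0]
    · rw [Function.update_of_ne hj, if_neg]
      intro h
      exact hj (Fin.ext (h.trans hi0.symm))
  have hDy : ∀ (a : Fin (2 * g) → 𝓞 F) (y : 𝓞 F), Dy (Function.update a i0 y) = Dy a := by
    intro a y
    unfold Dy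
    congr 1
    funext j
    split_ifs with hj
    · rfl
    · rw [Function.update_of_ne]
      intro h
      rw [h] at hj
      exact hj hi0
  have hD2 : ∀ (a : Fin (2 * g) → 𝓞 F) (y : 𝓞 F), D2 (Function.update a i0 y) = D2 a := by
    intro a y
    unfold D2
    rw [hDy]
  -- the bad sets
  obtain ⟨Z, hZ⟩ : ∃ Z : Finset (Fin (2 * g) → 𝓞 F), Z = (Fintype.piFinset S).filter
    (fun a => ∃ v : HeightOneSpectrum (𝓞 F), B ≤ nv v ^ 2 ∧ dis a ∈ v.asIdeal ∧ D2 a ∈ v.asIdeal) :=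
    ⟨_, rfl⟩
  have hZn : {a ∈ Bz F g B | ∃ v : HeightOneSpectrum (𝓞 F), B ≤ nv v ^ 2 ∧
      dis a ∈ v.asIdeal ∧ D2 a ∈ v.asIdeal}.ncard = Z.card := by
    rw [hZ, ← Set.ncard_coe_finset, Finset.coe_filter]
    congr 1
    ext a
    simp only [Set.mem_setOf_eq]
    rw [hmem]
    rfl
  rw [hZn]
  obtain ⟨Z1, hZ1⟩ : ∃ Z1 : Finset (Fin (2 * g) → 𝓞 F), Z1 = (Fintype.piFinset S).filter
    (fun a => D2 a = 0) := ⟨_, rfl⟩
  obtain ⟨Z2, hZ2⟩ : ∃ Z2 : Finset (Fin (2 * g) → 𝓞 F), Z2 = Z.filter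
    (fun a => D2 a ≠ 0) := ⟨_, rfl⟩
  have hZZ : Z.card ≤ Z1.card + Z2.card := by
    refine (Finset.card_le_card (t := Z1 ∪ Z2) ?_).trans (Finset.card_union_le _ _)
    intro a ha
    rw [Finset.mem_union, hZ1, hZ2, Finset.mem_filter, Finset.mem_filter]
    by_cases h0 : D2 a = 0
    · left
      rw [hZ, Finset.mem_filter] at ha
      exact ⟨ha.1, h0⟩
    · right
      exact ⟨ha, h0⟩
  -- the first set
  have c1 : Z1.card * (S i1).card ≤ K1 * (Fintype.piFinset S).card := by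
    refine fib_count S i1 Z1 (by rw [hZ1]; exact Finset.filter_subset _ _) K1 ?_
    intro a _
    obtain ⟨e1, e2, e3⟩ := d2 g F F (fun j => ((a j : 𝓞 F) : F)) hg (by
      exact_mod_cast Nat.factorial_ne_zero _)
    have e4 : Dz (fun j => ((a j : 𝓞 F) : F)) ≠ 0 := by
      intro h
      rw [h, coeff_zero] at e2
      exact e2.ne_zero rfl
    refine (Finset.card_le_card_of_injOn (t := (Dz (fun j => ((a j : 𝓞 F) : F))).roots.toFinset)
      (fun y : 𝓞 F => (y : F)) ?_ ?_).trans ?_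
    · intro y hy
      rw [Finset.mem_coe, Finset.mem_filter, hZ1, Finset.mem_filter] at hy
      rw [Finset.mem_coe, Multiset.mem_toFinset, mem_roots e4, IsRoot.def, e3]
      have h3 := D2_map (algebraMap (𝓞 F) F) (Function.update a i1 y)
      rw [hy.2.2, map_zero] at h3
      rw [h3]
      congr 1
      funext j
      by_cases hj : j = i1
      · subst hj
        rw [Function.update_self, if_pos hi1]
      · rw [Function.update_of_ne hj, if_neg]
        intro h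
        exact hj (Fin.ext (h.trans hi1.symm))
    · intro y _ z _ h
      exact RingOfIntegers.coe_injective h
    · refine (Multiset.toFinset_card_le _).trans ((card_roots' _).trans ?_)
      rw [hK1]
      exact e1
  -- the second set
  obtain ⟨T0, hT0⟩ : ∃ T0, T0 = B ^ (2 * g + 1) := ⟨_, rfl⟩
  obtain ⟨N, hN⟩ : ∃ N, N = T0 ^ d := ⟨_, rfl⟩
  have hT01 : 1 ≤ T0 := by rw [hT0]; exact Nat.one_le_pow _ _ hB1
  have hSi0 : ∀ x, x ∈ S i0 ↔ x ∈ Bal F T0 := by
    intro x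
    rw [hS, hT0]
    simp only [Set.Finite.mem_toFinset, hi0, Nat.sub_zero]
  obtain ⟨X', hX'⟩ : ∃ X', X' = 2 * m' * d * (2 * g * (CU * N / Q + CU)) := ⟨_, rfl⟩
  have hZ2s : Z2 ⊆ Fintype.piFinset S := by
    rw [hZ2, hZ]
    exact (Finset.filter_subset _ _).trans (Finset.filter_subset _ _)
  have hcls : ∀ v : HeightOneSpectrum (𝓞 F), B ≤ nv v ^ 2 → ∀ A : 𝓞 F,
      ((S i0).filter fun x => x - A ∈ v.asIdeal).card ≤ CU * N / Q + CU := by
    intro v hv A
    have h4 := (hCU T0 v.asIdeal A hT01 v.ne_bot).2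
    have h5 : ((S i0).filter fun x => x - A ∈ v.asIdeal).card =
        {x ∈ Bal F T0 | x - A ∈ v.asIdeal}.ncard := by
      rw [← Set.ncard_coe_finset, Finset.coe_filter]
      congr 1
      ext x
      simp only [Set.mem_setOf_eq]
      rw [hSi0]
    rw [h5]
    have hQv : Q ≤ nv v := hPQ _ hv
    have hv0 : 0 < nv v := by omega
    change _ * nv v ≤ CU * (T0 ^ d + nv v) at h4
    rw [← hN, mul_add, ← Nat.le_div_iff_mul_le hv0, Nat.add_mul_div_right _ _ hv0] at h4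
    refine h4.trans ?_
    have : CU * N / nv v ≤ CU * N / Q := Nat.div_le_div_left hQv hQ1
    omega
  have c2 : Z2.card * (S i0).card ≤ X' * (Fintype.piFinset S).card := by
    refine fib_count S i0 Z2 hZ2s _ ?_
    intro a ha
    obtain ⟨e1, ⟨s, hs, e2⟩, e3⟩ := d1 g (𝓞 F) a hg
    by_cases h0 : D2 a = 0
    · have : ((S i0).filter fun y => Function.update a i0 y ∈ Z2) = ∅ := by
        rw [Finset.filter_eq_empty_iff]
        intro y _ hy
        rw [hZ2, Finset.mem_filter, hD2] at hy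
        exact hy.2 h0
      rw [this, Finset.card_empty]
      exact Nat.zero_le _
    · -- the primes
      have hfinL : {v : HeightOneSpectrum (𝓞 F) | B ≤ nv v ^ 2 ∧ D2 a ∈ v.asIdeal}.Finite := by
        refine (Ideal.finite_factors (I := Ideal.span {D2 a}) ?_).subset ?_
        · rw [Ne, Ideal.zero_eq_bot, Ideal.span_singleton_eq_bot]
          exact h0
        · intro v hv
          simp only [Set.mem_setOf_eq] at hv ⊢
          rw [Ideal.dvd_span_singleton]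
          exact hv.2
      obtain ⟨L, hL⟩ : ∃ L : Finset (HeightOneSpectrum (𝓞 F)), L = hfinL.toFinset := ⟨_, rfl⟩
      have hLm : ∀ v, v ∈ L ↔ B ≤ nv v ^ 2 ∧ D2 a ∈ v.asIdeal := by
        intro v
        rw [hL, Set.Finite.mem_toFinset]
        rfl
      have hLc : L.card ≤ 2 * m' * d := by
        rw [hd]
        exact prime_countF B C m' (D2 a) h0 hBC (hbd a ha) L fun v hv => (hLm v).1 hv
      have hsub : ((S i0).filter fun y => Function.update a i0 y ∈ Z2) ⊆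
          L.biUnion fun v => (S i0).filter fun y => (Dy a).eval y ∈ v.asIdeal := by
        intro y hy
        rw [Finset.mem_filter, hZ2, Finset.mem_filter, hZ, Finset.mem_filter] at hy
        obtain ⟨hy1, ⟨hy2, v, hP2, hP3, hP4⟩, hy3⟩ := hy
        rw [Finset.mem_biUnion]
        refine ⟨v, (hLm v).2 ⟨hP2, ?_⟩, ?_⟩
        · rwa [hD2] at hP4
        · rw [Finset.mem_filter]
          refine ⟨hy1, ?_⟩
          rw [e3, hup0]
          exact hP3
      refine (Finset.card_le_card hsub).trans (Finset.card_biUnion_le.trans ?_)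
      have hterm : ∀ v ∈ L, ((S i0).filter fun y => (Dy a).eval y ∈ v.asIdeal).card ≤
          2 * g * (CU * N / Q + CU) := by
        intro v hv
        obtain ⟨hP2, hP3⟩ := (hLm v).1 hv
        refine root_countF (S i0) v (2 * g) _ (hcls v hP2) (Dy a) e1 ?_
        intro hdvd
        rw [e2] at hdvd
        haveI := v.isPrime
        rcases this.mem_or_mem hdvd with h | h
        · have h' : (1 : 𝓞 F) ∈ v.asIdeal := by
            rcases hs with rfl | rfl
            · simpa using h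
            · simpa using h
          exact this.ne_top ((Ideal.eq_top_iff_one _).2 h')
        · have h5 := this.mem_of_pow_mem _ h
          refine hPg v hP2 ?_
          push_cast
          exact h5
      refine (Finset.sum_le_sum hterm).trans ?_
      rw [Finset.sum_const, smul_eq_mul, hX']
      exact Nat.mul_le_mul_right _ hLc
  -- the sizes
  obtain ⟨V, hV⟩ : ∃ V, V = (Fintype.piFinset S).card := ⟨_, rfl⟩
  rw [← hV] at c1 c2
  have hBT0 : B ≤ T0 := by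
    rw [hT0]
    exact Nat.le_self_pow (by omega) B
  have hS0 : N ≤ CL * (S i0).card := by
    rw [hScard, hi0, Nat.sub_zero, ← hT0, hN]
    exact hlow T0 (hBL.trans hBT0)
  have hS1 : Q ≤ CL * (S i1).card := by
    rw [hScard, hi1, Nat.add_sub_cancel]
    have e1 : B ≤ B ^ (2 * g) := Nat.le_self_pow (by omega) B
    have e2 : B ^ (2 * g) ≤ (B ^ (2 * g)) ^ d := Nat.le_self_pow (by omega) _
    exact hQB.trans (e1.trans (e2.trans (hlow _ (hBL.trans e1))))
  have hNQ : Q ≤ N := by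
    rw [hN]
    exact hQB.trans (hBT0.trans (Nat.le_self_pow (by omega) _))
  have hN1 : 0 < N := by omega
  have t1 : Z1.card * Q ≤ (CL * K1) * V := by
    calc Z1.card * Q ≤ Z1.card * (CL * (S i1).card) := Nat.mul_le_mul_left _ hS1
      _ = CL * (Z1.card * (S i1).card) := by ring
      _ ≤ CL * (K1 * V) := Nat.mul_le_mul_left _ c1
      _ = _ := by ring
  have t2 : Z2.card * Q ≤ (8 * CL * m' * d * g * CU) * V := by
    have e1 : X' * Q ≤ (8 * m' * d * g * CU) * N := by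
      have h1 : (CU * N / Q) * Q ≤ CU * N := Nat.div_mul_le_self _ Q
      have h2 : (CU * N / Q + CU) * Q ≤ 2 * CU * N := by
        have : CU * Q ≤ CU * N := Nat.mul_le_mul_left _ hNQ
        nlinarith
      rw [hX']
      calc 2 * m' * d * (2 * g * (CU * N / Q + CU)) * Q =
            (4 * m' * d * g) * ((CU * N / Q + CU) * Q) := by ring
        _ ≤ (4 * m' * d * g) * (2 * CU * N) := Nat.mul_le_mul_left _ h2
        _ = _ := by ring
    have e2 : (Z2.card * Q) * N ≤ ((8 * CL * m' * d * g * CU) * V) * N := by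
      calc (Z2.card * Q) * N = (Z2.card * N) * Q := by ring
        _ ≤ (Z2.card * (CL * (S i0).card)) * Q :=
          Nat.mul_le_mul_right _ (Nat.mul_le_mul_left _ hS0)
        _ = CL * (Z2.card * (S i0).card) * Q := by ring
        _ ≤ CL * (X' * V) * Q := Nat.mul_le_mul_right _ (Nat.mul_le_mul_left _ c2)
        _ = CL * V * (X' * Q) := by ring
        _ ≤ CL * V * ((8 * m' * d * g * CU) * N) := Nat.mul_le_mul_left _ e1
        _ = _ := by ring
    exact Nat.le_of_mul_le_mul_right e2 hN1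
  have t3 : Z.card * Q ≤ K * V := by
    rw [hK, add_mul]
    refine (Nat.mul_le_mul_right Q hZZ).trans ?_
    rw [add_mul]
    exact Nat.add_le_add t1 t2
  have t4 : V ≤ (2 * CU) ^ (2 * g) * B ^ (d * dd g) := by
    rw [hV]
    refine card_box g B d (2 * CU) S fun j => ?_
    rw [hScard]
    exact hup _ (hB1j j)
  have t5 : Z.card * Q ≤ (K * (2 * CU) ^ (2 * g)) * B ^ (d * dd g) := by
    rw [mul_assoc]
    exact t3.trans (Nat.mul_le_mul_left _ t4)
  have t6 : (Z.card : ℝ) * (Q : ℝ) ≤ ((K * (2 * CU) ^ (2 * g) : ℕ) : ℝ) * (B : ℝ) ^ (d * dd g) := by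
    exact_mod_cast t5
  have t7 : ((K * (2 * CU) ^ (2 * g) : ℕ) : ℝ) ≤ ε * (Q : ℝ) := by
    rw [div_le_iff₀ hε] at hn0
    have h3 : (n0 : ℝ) ≤ Q := by exact_mod_cast hQn
    have h4 := mul_le_mul_of_nonneg_left h3 hε.le
    linarith
  have hQr : (0 : ℝ) < (Q : ℝ) := by exact_mod_cast hQ1
  have hBr : (0 : ℝ) ≤ (B : ℝ) ^ (d * dd g) := by positivity
  have t8 : (Z.card : ℝ) * (Q : ℝ) ≤ (ε * (B : ℝ) ^ (d * dd g)) * (Q : ℝ) := by
    have h3 := mul_le_mul_of_nonneg_right t7 hBr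
    linarith
  exact le_of_mul_le_mul_right t8 hQr

theorem bz_fin (F : Type) [Field F] [NumberField F] (g B : ℕ) : (Bz F g B).Finite := by
  refine (Set.Finite.pi' (t := fun j : Fin (2 * g) => Bal F (B ^ (2 * g + 1 - (j : ℕ)))) fun j =>
    Pool.Agent.N364.PF.bal_fin _ _).subset fun a ha => ?_
  exact ha

theorem str (h1 : S_CU) (h2 : S_CL) (h3 : S_PF) : S_STR := by
  intro F _ _ g hg ε hε
  obtain ⟨B₀, h⟩ := str0 h1 h2 h3 F g hg ε hε
  refine ⟨max B₀ 1, fun B hB => (le_trans ?_ (h B (le_trans (le_max_left _ _) hB)))⟩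
  have hd : Module.finrank ℚ F ≠ 0 := Module.finrank_pos.ne'
  have hsub : {a ∈ Bz F g B | ∃ v : HeightOneSpectrum (𝓞 F), B ^ dg F ≤ nv v ^ 2 ∧
      dis a ∈ v.asIdeal ∧ D2 a ∈ v.asIdeal} ⊆ {a ∈ Bz F g B | ∃ v : HeightOneSpectrum (𝓞 F),
      B ≤ nv v ^ 2 ∧ dis a ∈ v.asIdeal ∧ D2 a ∈ v.asIdeal} := by
    rintro a ⟨ha, v, hv, h4, h5⟩
    exact ⟨ha, v, (Nat.le_self_pow hd B).trans hv, h4, h5⟩
  exact_mod_cast Set.ncard_le_ncard hsub ((bz_fin F g B).subset fun a ha => ha.1)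

end Pool.Agent.N352.PF.STR331
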