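import Pool.Agent.N75.PF.CU
import Pool.Agent.N364.PF.Cl
import Pool.Agent.N645.PF.BX
import Pool.Agent.N189.PF.LD
import Pool.Agent.N195.PF.PR
import Pool.Agent.N195.PF.DSC
import Pool.Agent.N352.PF.SML
import Pool.Agent.N935.PF.WK
import Pool.Agent.N352.PF.Str
import Pool.Agent.N823.PF.Gf
import Pool.Agent.N951.PF.Fam

/-!
# The count of the family over a number field

Project PF (helper783), assembly of the count (helper352), with parts by helpers 75, 99, 189, 195, 331,
364, 645, 823, 935, 951.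
-/

set_option autoImplicit false
set_option linter.all false

namespace Pool.Agent.N352.PF

theorem bxT : S_BX := Pool.Agent.N645.PF.bx Pool.Agent.N75.PF.cu Pool.Agent.N364.PF.cl

theorem famT : Pool.Agent.N783.PF.S_FAM :=
  Pool.Agent.N951.PF.fam bxT
    (Pool.Agent.N352.PF.SML99.sml Pool.Agent.N75.PF.cu bxT Pool.Agent.N189.PF.ld Pool.Agent.N195.PF.pr
      Pool.Agent.N195.PF.pf)
    Pool.Agent.N935.PF.WK.wk
    (Pool.Agent.N352.PF.STR331.str Pool.Agent.N75.PF.cu Pool.Agent.N364.PF.cl Pool.Agent.N195.PF.pf)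
    Pool.Agent.N195.PF.dscp Pool.Agent.N823.PF.gf Pool.Agent.N195.PF.pf

end Pool.Agent.N352.PF
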