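import Pool.Agent.N352.PJ.Cnt

/-!
# Statements on the number of polynomials over the ring of integers of a number field

Project PF (helper783): the version over every number field `F` of project PQ. These are the parts of
the count of the family (helper352). `pol`, `dis`, `Dy`, `D2` and the theorems on them are those of
project PJ (`N352/PJ/Cnt.lean`, `N568/PJ/D12.lean`); the versions over `ℤ` are in `N783/PQ/Cnt.lean`.
-/

set_option autoImplicit false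
set_option linter.all false

open Polynomial NumberField IsDedekindDomain
open scoped Classical

namespace Pool.Agent.N352.PF

open Pool.Agent.N352.PJ (dd pol dis Dy D2)

section

variable (F : Type) [Field F] [NumberField F]

/-- The degree of `F`. -/
noncomputable abbrev dg : ℕ := Module.finrank ℚ F

/-- The integers all of whose conjugates are of absolute value at most `T`. -/
def Bal (T : ℕ) : Set (𝓞 F) := {x | ∀ σ : F →+* ℂ, ‖σ x‖ ≤ T}

variable {F}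

/-- The norm of a prime ideal. -/
noncomputable def nv (v : HeightOneSpectrum (𝓞 F)) : ℕ := Ideal.absNorm v.asIdeal

/-- Reduction modulo a prime ideal. -/
noncomputable abbrev rv (v : HeightOneSpectrum (𝓞 F)) (f : (𝓞 F)[X]) : (𝓞 F ⧸ v.asIdeal)[X] :=
  f.map (Ideal.Quotient.mk v.asIdeal)

/-- The coefficients of the polynomials of height at most `B`. -/
def Bz (F : Type) [Field F] [NumberField F] (g B : ℕ) : Set (Fin (2 * g) → 𝓞 F) :=
  {a | ∀ j : Fin (2 * g), a j ∈ Bal F (B ^ (2 * g + 1 - (j : ℕ)))}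

/-- The coefficients of the polynomials of height at most `B` with given residues modulo the integer
`W`. -/
def Bx (g B W : ℕ) (A : Fin (2 * g) → 𝓞 F) : Set (Fin (2 * g) → 𝓞 F) :=
  {a | a ∈ Bz F g B ∧ ∀ j, (W : 𝓞 F) ∣ a j - A j}

/-- `f` is weakly divisible by the square of `v`. -/
def Weak (v : HeightOneSpectrum (𝓞 F)) (f : (𝓞 F)[X]) : Prop :=
  ∃ c : 𝓞 F, f.eval c ∈ v.asIdeal ^ 2 ∧ (derivative f).eval c ∈ v.asIdeal

/-- The discriminant of `f` (up to sign), a polynomial of degree `2 g + 1`. -/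
noncomputable def dsc (g : ℕ) (f : (𝓞 F)[X]) : 𝓞 F :=
  f.resultant (derivative f) (2 * g + 1) (2 * g)

end

/-- The number of integers in a residue class modulo an ideal, upper bound. -/
def S_CU : Prop := ∀ (F : Type) [Field F] [NumberField F], ∃ C : ℕ, ∀ (T : ℕ) (I : Ideal (𝓞 F))
  (A : 𝓞 F), 1 ≤ T → I ≠ ⊥ → {x ∈ Bal F T | x - A ∈ I}.Finite ∧
  {x ∈ Bal F T | x - A ∈ I}.ncard * Ideal.absNorm I ≤ C * (T ^ dg F + Ideal.absNorm I)

/-- The number of integers in a residue class modulo an integer, lower bound. -/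
def S_CL : Prop := ∀ (F : Type) [Field F] [NumberField F], ∃ C : ℕ, 1 ≤ C ∧ ∀ (T W : ℕ) (A : 𝓞 F),
  0 < W → C * W ≤ T → T ^ dg F ≤ C * {x ∈ Bal F T | (W : 𝓞 F) ∣ x - A}.ncard * W ^ dg F

/-- The size of the boxes. -/
def S_BX : Prop := ∀ (F : Type) [Field F] [NumberField F] (g : ℕ), ∃ C : ℕ, 1 ≤ C ∧
  ∀ (B W : ℕ) (A : Fin (2 * g) → 𝓞 F), 0 < W → C * W ≤ B →
  (Bx g B W A).Finite ∧ B ^ (dg F * dd g) ≤ C * (Bx g B W A).ncard * W ^ (2 * g * dg F) ∧
  (Bx g B W A).ncard * W ^ (2 * g * dg F) ≤ C * B ^ (dg F * dd g)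

/-- The proportion of discriminants divisible by the square of a prime ideal. -/
def S_LD : Prop := ∀ (F : Type) [Field F] [NumberField F] (g : ℕ) (v : HeightOneSpectrum (𝓞 F)),
  1 ≤ g → ((2 * g + 1).factorial : 𝓞 F) ∉ v.asIdeal →
  {a : Fin (2 * g) → 𝓞 F ⧸ v.asIdeal ^ 2 | dis a = 0}.ncard * nv v ^ 2 ≤
    (2 * g + 2 * g * (2 * g - 1) * (2 * g + 1)) * nv v ^ (4 * g)

/-- The sum of `N(v) ^ (-2)` over the large prime ideals is small. -/
def S_PR : Prop := ∀ (F : Type) [Field F] [NumberField F] (ε : ℝ), 0 < ε → ∃ M : ℕ,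
  ∀ T : Finset (HeightOneSpectrum (𝓞 F)), (∀ v ∈ T, M < nv v) →
  ∑ v ∈ T, 1 / ((nv v : ℝ) ^ 2) ≤ ε

/-- The prime ideals of bounded norm are finite in number; those containing a given integer have
norm at most a power of it. -/
def S_PF : Prop := ∀ (F : Type) [Field F] [NumberField F],
  (∀ M : ℕ, {v : HeightOneSpectrum (𝓞 F) | nv v ≤ M}.Finite) ∧
  (∀ (v : HeightOneSpectrum (𝓞 F)) (m : ℕ), 0 < m → (m : 𝓞 F) ∈ v.asIdeal → nv v ≤ m ^ dg F) ∧
  ∀ v : HeightOneSpectrum (𝓞 F), 2 ≤ nv v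

/-- Few discriminants are divisible by the square of a medium prime ideal. -/
def S_SML : Prop := ∀ (F : Type) [Field F] [NumberField F] (g : ℕ), 1 ≤ g → ∃ M C : ℕ, 1 ≤ C ∧
  ∀ (B W : ℕ) (A : Fin (2 * g) → 𝓞 F), 0 < W → C * W ≤ B →
  4 * {a ∈ Bx g B W A | ∃ v : HeightOneSpectrum (𝓞 F), M < nv v ∧ nv v ^ 2 < B ^ dg F ∧
    (W : 𝓞 F) ∉ v.asIdeal ∧ dis a ∈ v.asIdeal ^ 2}.ncard ≤ (Bx g B W A).ncard

/-- Weakly divisible discriminants. -/
def S_WK : Prop := ∀ (F : Type) [Field F] [NumberField F] (g : ℕ) (v : HeightOneSpectrum (𝓞 F)),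
  1 ≤ g → ((2 * g + 1).factorial : 𝓞 F) ∉ v.asIdeal → ∀ a : Fin (2 * g) → 𝓞 F,
  dis a ∈ v.asIdeal ^ 2 → D2 a ∉ v.asIdeal → Weak v (pol a)

/-- Few discriminants are strongly divisible by the square of a large prime ideal. -/
def S_STR : Prop := ∀ (F : Type) [Field F] [NumberField F] (g : ℕ), 1 ≤ g → ∀ ε : ℝ, 0 < ε →
  ∃ B₀ : ℕ, ∀ B ≥ B₀, ({a ∈ Bz F g B | ∃ v : HeightOneSpectrum (𝓞 F), B ^ dg F ≤ nv v ^ 2 ∧
    dis a ∈ v.asIdeal ∧ D2 a ∈ v.asIdeal}.ncard : ℝ) ≤ ε * (B : ℝ) ^ (dg F * dd g)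

/-- Discriminant and separability modulo a prime ideal. -/
def S_DSC : Prop := ∀ (F : Type) [Field F] [NumberField F] (g : ℕ) (v : HeightOneSpectrum (𝓞 F))
  (f f' : (𝓞 F)[X]), 1 ≤ g → f.Monic → f.natDegree = 2 * g + 1 →
  (∀ j, f.coeff j - f'.coeff j ∈ v.asIdeal) → (rv v f').Separable → dsc g f ∉ v.asIdeal

/-- The conditions at the small primes can be satisfied. -/
def S_GF : Prop := ∀ (F : Type) [Field F] [NumberField F] (g M : ℕ), 1 ≤ g →
  ∃ (W : ℕ) (f₁ : (𝓞 F)[X]), f₁.Monic ∧ f₁.natDegree = 2 * g + 1 ∧ f₁.coeff (2 * g) = 0 ∧ 0 < W ∧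
    2 ∣ W ∧ (∀ v : HeightOneSpectrum (𝓞 F), (2 : 𝓞 F) ∈ v.asIdeal → Irreducible (rv v f₁)) ∧
    (∀ v : HeightOneSpectrum (𝓞 F), (W : 𝓞 F) ∈ v.asIdeal → (rv v f₁).Separable) ∧
    ∀ p : ℕ, p.Prime → p ≤ M → p ∣ W

end Pool.Agent.N352.PF
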