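import Pool.Agent.N195.PF.DSC
import Pool.Agent.N783.PF.Lat

/-!
# Discriminant and separability modulo a prime ideal, in the form of `N783/PF/Lat.lean`
-/

set_option autoImplicit false
set_option linter.all false

open IsDedekindDomain

namespace Pool.Agent.N352.PF

theorem dscT : Pool.Agent.N783.PF.S_DSC := by
  intro F _ _ g 𝔭 f f' hg hp h0 hm hd hc hs
  exact Pool.Agent.N195.PF.dscp F g ⟨𝔭, hp, h0⟩ f f' hg hm hd hc hs

end Pool.Agent.N352.PF
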